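import Pool.Agent.ANO5.Typ.Disc
import Pool.Agent.ANO5.Lev.Coord
import Pool.Agent.ANO5.End.Concrete
import Pool.Agent.ANO5.A3.Sys.CptSet

/-!
# ANO5, module Typ: the points near a type with a level are compact modulo the group of the type

`cocpt`: by `cocompact_NN_box` a point `x` near the type is mapped into a compact set `K` by an
element `a` of the stabiliser of the type.  The shift of `TU + TS` under `a` is bounded if `x` is
near the level; by `finite_chi` there are finitely many values, with representatives `b`, and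
`b⁻¹ a` preserves `TU`, `TS` and maps `x` into the union of the sets `b⁻¹ K`.
-/

set_option autoImplicit false

open scoped UpperHalfPlane MatrixGroups
open Set Filter Topology

namespace Pool.Agent.ANO5.Typ

open Pool.Agent.ANO3 Pool.Agent.ANO3.Tree Pool.Agent.ANO5.A1 Pool.Agent.ANO5.A2
  Pool.Agent.ANO5.A3 Pool.Agent.ANO5.A3.Grp Pool.Agent.ANO5.Hyp Pool.Agent.ANO5.Tor
  Pool.Agent.ANO5.Lin Pool.Agent.ANO5.Lev Pool.Agent.ANO5.A3.End

section Grp

variable [Fib] {r : ℕ} {S : Fin r → SurfaceMap}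

/-- The elements of the group of a type. -/
def PP (F : ∀ i, Flat (S i)) (κ : Fin r → ℍ) (γ : Fin r → SL(2, ℝ)) (δ : Equiv.Perm Fib.W) :
    Prop :=
  InΓ S γ ∧ δ ∈ Fib.Γ ∧ (∀ i, (F i).Reg (κ i) → γ i = 1) ∧ ∀ i, (F i).Eqv (κ i) (γ i • κ i)

variable {F : ∀ i, Flat (S i)} {κ : Fin r → ℍ} {γ γ' : Fin r → SL(2, ℝ)}
  {δ δ' : Equiv.Perm Fib.W}

theorem PP.mul (h : PP F κ γ δ) (h' : PP F κ γ' δ') :
    PP F κ (fun i => (γ i)⁻¹ * γ' i) (δ⁻¹ * δ') := by
  obtain ⟨h1, h2, h3, h4⟩ := h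
  obtain ⟨h1', h2', h3', h4'⟩ := h'
  refine ⟨fun i => mul_mem (inv_mem (h1 i)) (h1' i), mul_mem (inv_mem h2) h2', fun i hi => ?_,
    fun i => ?_⟩
  · show (γ i)⁻¹ * γ' i = 1
    rw [h3 i hi, h3' i hi, inv_one, one_mul]
  · have tu := (F i).isTree_u
    have ts := (F i).isTree_s
    have e1 : (F i).Eqv (γ i • κ i) (γ' i • κ i) :=
      ⟨(tu.congr_left ((tu.symm _ _).trans (h4 i).1) _).trans (h4' i).1,
        (ts.congr_left ((ts.symm _ _).trans (h4 i).2) _).trans (h4' i).2⟩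
    have e2 : γ i • ((γ i)⁻¹ * γ' i) • κ i = γ' i • κ i := by
      rw [mul_smul, smul_inv_smul]
    constructor
    · rw [← Flat.du_smul (F i) (h1 i), e2]
      exact e1.1
    · rw [← Flat.ds_smul (F i) (h1 i), e2]
      exact e1.2

theorem PP.exists_perm (h : PP F κ γ δ) :
    ∃ a ∈ Stab F κ, (a : X r → X r) = dk γ δ := by
  obtain ⟨a, ha, hax⟩ := exists_deck (isDeck_dk (S := S) h.1 h.2.1)
  refine ⟨a, mem_stab ha (x := (κ, Classical.arbitrary Fib.W)) (EqvS.refl κ) fun i => ?_,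
    funext hax⟩
  rw [hax]
  have h1 := h.2.2.2 i
  exact ⟨((F i).isTree_u.symm _ _).trans h1.1, ((F i).isTree_s.symm _ _).trans h1.2⟩

end Grp

variable [TFib] {r : ℕ} {S : Fin r → SurfaceMap} {D : TData S}
  {D' : TData fun i => rev (S i)} {T₀ T : X r ≃ₜ X r}

theorem continuous_dk (γ : Fin r → SL(2, ℝ)) {δ : Equiv.Perm Fib.W} (hδ : δ ∈ Fib.Γ) :
    Continuous (dk (r := r) γ δ) := by
  obtain ⟨g, hg⟩ := A3.exists_dk (r := r) γ hδ
  have e : (g : X r → X r) = dk γ δ := funext hg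
  rw [← e]
  exact g.continuous

theorem cocpt (N : ∀ i, Normal (S i)) (h : Sit D D' T₀ T) (hA : IsAnosovLift (surf S) T)
    {κ : Fin r → ℍ} (hκ : A3.IsType (fun i => (N i).toNormalForm.flat) κ) {c : VU D × VU D'}
    (hc : RV (fun i => (N i).toNormalForm.flat) D D' T₀ κ c) :
    Cocpt (fun i => (N i).toNormalForm.flat) T (tu D T) (tu D' T.symm) κ c := by
  classical
  obtain ⟨m, γ₀, δ₀, hl⟩ := hc
  obtain ⟨ε₁, hε₁, hbox⟩ := A3.cocompact_NN_box (F := fun i => (N i).toNormalForm.flat) h.set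
    (w' := κ) (w'' := κ) (fun i => (hκ i).imp id fun hi => ⟨rfl, hi⟩)
  obtain ⟨L, hL, hLc⟩ := Fib.cocompact
  obtain ⟨K, hK, hx⟩ := hbox L hL
  have hθc : Continuous fun x => TU D T x + TU D' T.symm x :=
    (continuous_TU h.set h.model).add (continuous_TU h.set.symm h.model')
  obtain ⟨R₁, hR₁⟩ : ∃ R, ∀ y ∈ K, ‖TU D T y + TU D' T.symm y‖ ≤ R := by
    obtain ⟨R, hR⟩ := (hK.image hθc).isBounded.exists_norm_le
    exact ⟨R, fun y hy => hR _ ⟨y, hy, rfl⟩⟩
  obtain ⟨R, hR⟩ : ∃ R, R = R₁ + (‖c.1‖ + ‖c.2‖ + 2) := ⟨_, rfl⟩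
  obtain ⟨Λ, hΛ⟩ : ∃ Λ : Set (Fin TFib.k → ℝ), Λ = {l | (∀ j, |l j| ≤ R) ∧
      ∃ (γ : Fin r → SL(2, ℝ)) (δ : Equiv.Perm Fib.W),
        PP (fun i => (N i).toNormalForm.flat) κ γ δ ∧
          chi D (dk (r := r) γ δ) + chi D' (dk (r := r) γ δ) = l} := ⟨_, rfl⟩
  have hfin : Λ.Finite := by
    refine (finite_chi N h hA hl R).subset fun l hl => ?_
    rw [hΛ] at hl
    obtain ⟨h1, γ, δ, h2, h3⟩ := hl
    obtain ⟨a, ha, hax⟩ := h2.exists_perm
    refine ⟨h1, a, ha, ?_⟩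
    unfold chiT
    rw [hax]
    exact h3
  have hex : ∀ l : Fin TFib.k → ℝ, ∃ p : (Fin r → SL(2, ℝ)) × Equiv.Perm Fib.W, l ∈ Λ →
      PP (fun i => (N i).toNormalForm.flat) κ p.1 p.2 ∧
          chi D (dk (r := r) p.1 p.2) + chi D' (dk (r := r) p.1 p.2) = l := fun l => by
    by_cases hl : l ∈ Λ
    · have hl' := hl
      rw [hΛ] at hl'
      obtain ⟨-, γ, δ, h2, h3⟩ := hl'
      exact ⟨(γ, δ), fun _ => ⟨h2, h3⟩⟩
    · exact ⟨(1, 1), fun h => absurd h hl⟩
  choose p hp using hex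
  refine ⟨min ε₁ 1, lt_min hε₁ one_pos,
    ⋃ l ∈ Λ, dk (fun i => ((p l).1 i)⁻¹) (p l).2⁻¹ '' K, ?_, fun x hxε hxu hxs => ?_⟩
  · refine hfin.isCompact_biUnion fun l hl => hK.image ?_
    exact continuous_dk _ (inv_mem (hp l hl).1.2.1)
  · obtain ⟨γ, hγ, h2, h3, -, h5⟩ := hx x fun i =>
      ⟨(hxε i).1.trans (min_le_left _ _), (hxε i).2.trans (min_le_left _ _)⟩
    obtain ⟨δ, hδ, hδL⟩ := hLc x.2
    have hK1 := h5 δ hδL
    have hPP : PP (fun i => (N i).toNormalForm.flat) κ γ δ := ⟨hγ, hδ, h2, h3⟩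
    obtain ⟨a, ha, hax⟩ := hPP.exists_perm
    obtain ⟨l, hl0⟩ : ∃ l, l = chiT D D' a := ⟨_, rfl⟩
    have hsum := sum_act h ha.1 x
    rw [hax, ← hl0] at hsum
    have hlR : ∀ j, |l j| ≤ R := fun j => by
      have e1 : l = (TU D T (dk γ δ x) + TU D' T.symm (dk γ δ x)) -
          (TU D T x + TU D' T.symm x) := by
        rw [hsum]
        abel
      have e2 : ‖TU D T x + TU D' T.symm x‖ ≤ ‖c.1‖ + ‖c.2‖ + 2 := by
        have e3 : ‖TU D T x‖ ≤ ‖c.1‖ + 1 := by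
          have e4 : dist (tu D T x) c.1 ≤ 1 := hxu.trans (min_le_right _ _)
          have e5 : ‖tu D T x‖ ≤ ‖c.1‖ + 1 := by
            rw [dist_eq_norm] at e4
            have e6 := norm_sub_norm_le (tu D T x) c.1
            linarith
          exact e5
        have e3' : ‖TU D' T.symm x‖ ≤ ‖c.2‖ + 1 := by
          have e4 : dist (tu D' T.symm x) c.2 ≤ 1 := hxs.trans (min_le_right _ _)
          have e5 : ‖tu D' T.symm x‖ ≤ ‖c.2‖ + 1 := by
            rw [dist_eq_norm] at e4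
            have e6 := norm_sub_norm_le (tu D' T.symm x) c.2
            linarith
          exact e5
        refine (norm_add_le _ _).trans ?_
        linarith
      have e3 : ‖l‖ ≤ R := by
        rw [e1, hR]
        exact (norm_sub_le _ _).trans (add_le_add (hR₁ _ hK1) e2)
      exact (norm_le_pi_norm l j).trans e3
    have hlΛ : l ∈ Λ := by
      rw [hΛ]
      refine ⟨hlR, γ, δ, hPP, ?_⟩
      rw [hl0]
      unfold chiT
      rw [hax]
    obtain ⟨hp1, hp2⟩ := hp l hlΛ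
    have hq := hp1.mul hPP
    refine ⟨fun i => ((p l).1 i)⁻¹ * γ i, (p l).2⁻¹ * δ, hq.1, hq.2.1, hq.2.2.1, hq.2.2.2,
      fun y => ?_, ?_⟩
    · obtain ⟨b, hb, hbx⟩ := hq.exists_perm
      obtain ⟨d, hd, hdx⟩ := hp1.exists_perm
      have e1 : d * b = a := by
        refine Equiv.ext fun z => ?_
        show d (b z) = a z
        rw [hbx, hdx, hax, ← dk_mul]
        have e3 : (fun i => (p l).1 i * (((p l).1 i)⁻¹ * γ i)) = γ := funext fun i => by
          rw [mul_inv_cancel_left]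
        rw [e3, mul_inv_cancel_left]
      have e2 : chiT D D' d = l := by
        unfold chiT
        rw [hdx]
        exact hp2
      have e3 := chiT_mul (D := D) (D' := D') hd.1 hb.1
      rw [e1, ← hl0, e2] at e3
      have e4 : chiT D D' b = 0 := by
        have e5 : l + 0 = l + chiT D D' b := by rw [add_zero]; exact e3
        exact (add_left_cancel e5).symm
      have e5 := act_eq h hb.1 e4 y
      rw [hbx] at e5
      exact ⟨Subtype.ext e5.1, Subtype.ext e5.2⟩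
    · refine mem_iUnion₂.2 ⟨l, hlΛ, dk γ δ x, hK1, ?_⟩
      rw [← dk_mul]

end Pool.Agent.ANO5.Typ
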