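import Mathlib

/-!
# ANO5, module Typ: unipotent conjugation and rational characters

`s` is a subgroup of a group `G` and `H` an element of `G` which normalizes it. `Unip s H M`: the
conjugation by `H` acts on the additive functions `s → ℝ` by a map `P` with `(P - 1) ^ M = 0`.
-/

set_option autoImplicit false

open Set Matrix

namespace Pool.Agent.ANO5.Typ

/-- `h` is additive on `s`. -/
def AddOn {G : Type*} [Group G] (s : Set G) (h : G → ℝ) : Prop :=
  ∀ p ∈ s, ∀ q ∈ s, h (p * q) = h p + h q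

/-- The difference of `h` with its conjugate by `H`. -/
def Dl {G : Type*} [Group G] (H : G) (h : G → ℝ) (p : G) : ℝ := h (H * p * H⁻¹) - h p

/-- The conjugation by `H` acts unipotently on the additive functions on `s`. -/
def Unip {G : Type*} [Group G] (s : Set G) (H : G) (M : ℕ) : Prop :=
  ∀ h : G → ℝ, AddOn s h → ∀ p ∈ s, (Dl H)^[M] h p = 0

section Pow

variable {G : Type*} [Group G] {s : Subgroup G} {H : G}

theorem AddOn.one {h : G → ℝ} (hh : AddOn (s : Set G) h) : h 1 = 0 := by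
  have h1 := hh 1 s.one_mem 1 s.one_mem
  rw [mul_one] at h1
  linarith

theorem AddOn.inv {h : G → ℝ} (hh : AddOn (s : Set G) h) {p : G} (hp : p ∈ s) :
    h p⁻¹ = -h p := by
  have h1 := hh p hp p⁻¹ (s.inv_mem hp)
  rw [mul_inv_cancel, hh.one] at h1
  linarith

theorem AddOn.conj {h : G → ℝ} (hh : AddOn (s : Set G) h) {a p : G} (ha : a ∈ s) (hp : p ∈ s) :
    h (a * p * a⁻¹) = h p := by
  rw [hh _ (s.mul_mem ha hp) _ (s.inv_mem ha), hh _ ha _ hp, hh.inv ha]
  ring

theorem AddOn.Dl (hH : ∀ p ∈ s, H * p * H⁻¹ ∈ s) {h : G → ℝ} (hh : AddOn (s : Set G) h) :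
    AddOn (s : Set G) (Dl H h) := by
  intro p hp q hq
  have e : H * (p * q) * H⁻¹ = (H * p * H⁻¹) * (H * q * H⁻¹) := by group
  unfold Typ.Dl
  rw [e, hh _ (hH p hp) _ (hH q hq), hh p hp q hq]
  ring

/-- The space of the additive functions. -/
private def V_Unip (s : Subgroup G) : Submodule ℝ (s → ℝ) where
  carrier := {h | ∀ p q : s, h (p * q) = h p + h q}
  add_mem' := by
    intro a b ha hb p q
    simp only [Pi.add_apply, ha p q, hb p q]
    ring
  zero_mem' := by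
    intro p q
    simp
  smul_mem' := by
    intro c a ha p q
    simp only [Pi.smul_apply, ha p q, smul_eq_mul]
    ring

/-- The action of `H` on the additive functions. -/
private def P_Unip (hH : ∀ p ∈ s, H * p * H⁻¹ ∈ s) : Module.End ℝ (V_Unip s) where
  toFun h := ⟨fun p => h.1 ⟨H * p * H⁻¹, hH p p.2⟩, by
    intro p q
    have e : (⟨H * ((p * q : s) : G) * H⁻¹, hH _ (p * q : s).2⟩ : s) =
        ⟨H * p * H⁻¹, hH p p.2⟩ * ⟨H * q * H⁻¹, hH q q.2⟩ := by
      apply Subtype.ext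
      show H * ((p : G) * (q : G)) * H⁻¹ = H * p * H⁻¹ * (H * q * H⁻¹)
      group
    show h.1 _ = _
    rw [e]
    exact h.2 _ _⟩
  map_add' _ _ := rfl
  map_smul' _ _ := rfl

private theorem res_Unip (hH : ∀ p ∈ s, H * p * H⁻¹ ∈ s) (M : ℕ) : ∀ (h : G → ℝ)
    (hh : AddOn (s : Set G) h) (p : s),
    (Dl H)^[M] h p = (((P_Unip hH - 1) ^ M : Module.End ℝ (V_Unip s))
      ⟨fun p => h p, fun p q => hh p p.2 q q.2⟩).1 p := by
  induction M with
  | zero =>
    intro h hh p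
    rfl
  | succ M ih =>
    intro h hh p
    rw [Function.iterate_succ_apply, ih _ (hh.Dl hH) p, pow_succ, Module.End.mul_apply]
    rfl

private theorem pow_Unip (hH : ∀ p ∈ s, H * p * H⁻¹ ∈ s) {H' : G}
    (hH' : ∀ p ∈ s, H' * p * H'⁻¹ ∈ s) {j : ℕ} {a : G} (ha : a ∈ s) (e : H' = a * H ^ j) :
    P_Unip hH' = P_Unip hH ^ j := by
  have key : ∀ (i : ℕ) (h : V_Unip s) (p : s) (hp : H ^ i * p * (H ^ i)⁻¹ ∈ s),
      ((P_Unip hH ^ i : Module.End ℝ (V_Unip s)) h).1 p = h.1 ⟨H ^ i * p * (H ^ i)⁻¹, hp⟩ := by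
    intro i
    induction i with
    | zero =>
      intro h p hp
      have e1 : (⟨H ^ 0 * p * (H ^ 0)⁻¹, hp⟩ : s) = p := by
        apply Subtype.ext
        show H ^ 0 * (p : G) * (H ^ 0)⁻¹ = p
        group
      rw [e1]
      rfl
    | succ i ih =>
      intro h p hp
      have hq : H ^ i * (⟨H * p * H⁻¹, hH p p.2⟩ : s) * (H ^ i)⁻¹ ∈ s := by
        have e2 : H ^ i * (H * (p : G) * H⁻¹) * (H ^ i)⁻¹ = H ^ (i + 1) * p * (H ^ (i + 1))⁻¹ := by
          rw [pow_succ]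
          group
        show H ^ i * (H * (p : G) * H⁻¹) * (H ^ i)⁻¹ ∈ s
        rw [e2]
        exact hp
      rw [pow_succ', Module.End.mul_apply]
      show ((P_Unip hH ^ i : Module.End ℝ (V_Unip s)) h).1 ⟨H * p * H⁻¹, hH p p.2⟩ = _
      rw [ih h _ hq]
      refine congrArg h.1 (Subtype.ext ?_)
      show H ^ i * (H * (p : G) * H⁻¹) * (H ^ i)⁻¹ = H ^ (i + 1) * p * (H ^ (i + 1))⁻¹
      rw [pow_succ]
      group
  have hj : ∀ (i : ℕ) (p : G), p ∈ s → H ^ i * p * (H ^ i)⁻¹ ∈ s := by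
    intro i
    induction i with
    | zero =>
      intro p hp
      have e1 : H ^ 0 * p * (H ^ 0)⁻¹ = p := by group
      rw [e1]
      exact hp
    | succ i ih =>
      intro p hp
      have e2 : H ^ (i + 1) * p * (H ^ (i + 1))⁻¹ = H * (H ^ i * p * (H ^ i)⁻¹) * H⁻¹ := by
        rw [pow_succ']
        group
      rw [e2]
      exact hH _ (ih p hp)
  refine LinearMap.ext fun h => Subtype.ext (funext fun p => ?_)
  rw [key j h p (hj j p p.2)]
  show h.1 ⟨H' * p * H'⁻¹, hH' p p.2⟩ = h.1 ⟨H ^ j * p * (H ^ j)⁻¹, hj j p p.2⟩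
  have e3 : (⟨H' * p * H'⁻¹, hH' p p.2⟩ : s) =
      ⟨a, ha⟩ * ⟨H ^ j * p * (H ^ j)⁻¹, hj j p p.2⟩ * ⟨a, ha⟩⁻¹ := by
    apply Subtype.ext
    show H' * (p : G) * H'⁻¹ = a * (H ^ j * p * (H ^ j)⁻¹) * a⁻¹
    rw [e]
    group
  have h2 := h.2
  have h3 : ∀ x y : s, h.1 (x * y) = h.1 x + h.1 y := h2
  have h4 : h.1 1 = 0 := by
    have := h3 1 1
    rw [mul_one] at this
    linarith
  have h5 : ∀ x : s, h.1 x⁻¹ = -h.1 x := by
    intro x
    have := h3 x x⁻¹
    rw [mul_inv_cancel, h4] at this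
    linarith
  rw [e3, h3, h3, h5]
  ring

/-- the condition passes to powers and inner automorphisms -/
theorem Unip.pow {M : ℕ} (hH : ∀ p ∈ s, H * p * H⁻¹ ∈ s) (h : Unip (s : Set G) H M) {H' : G}
    (hH' : ∀ p ∈ s, H' * p * H'⁻¹ ∈ s) {j : ℕ} {a : G} (ha : a ∈ s) (e : H' = a * H ^ j) :
    Unip (s : Set G) H' M := by
  have h0 : (P_Unip hH - 1) ^ M = 0 := by
    refine LinearMap.ext fun x => Subtype.ext (funext fun p => ?_)
    classical
    -- extend `x` to `G`
    obtain ⟨y, hy⟩ : ∃ y : G → ℝ, ∀ q : s, y q = x.1 q :=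
      ⟨fun g => if hg : g ∈ s then x.1 ⟨g, hg⟩ else 0, fun q => dif_pos q.2⟩
    have hya : AddOn (s : Set G) y := by
      intro a ha b hb
      have h1 := hy ⟨a, ha⟩
      have h2 := hy ⟨b, hb⟩
      have h3 := hy ⟨a * b, s.mul_mem ha hb⟩
      have h4 : x.1 (⟨a, ha⟩ * ⟨b, hb⟩) = x.1 ⟨a, ha⟩ + x.1 ⟨b, hb⟩ := x.2 _ _
      rw [← h1, ← h2] at h4
      exact h3.trans h4
    have h1 := res_Unip hH M y hya p
    rw [h y hya p p.2] at h1
    have h2 : (⟨fun q => y q, fun p q => hya p p.2 q q.2⟩ : V_Unip s) = x :=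
      Subtype.ext (funext hy)
    rw [h2] at h1
    rw [← h1]
    rfl
  have h1 : (P_Unip hH' - 1) ^ M = 0 := by
    have e1 : P_Unip hH' - 1 = (∑ i ∈ Finset.range j, P_Unip hH ^ i) * (P_Unip hH - 1) := by
      rw [pow_Unip hH hH' ha e]
      exact (geom_sum_mul (P_Unip hH) j).symm
    have hc1 : Commute (∑ i ∈ Finset.range j, P_Unip hH ^ i) (P_Unip hH) :=
      Commute.sum_left _ _ _ fun i _ => Commute.pow_self _ _
    have hc : Commute (∑ i ∈ Finset.range j, P_Unip hH ^ i) (P_Unip hH - 1) :=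
      @Commute.sub_right (Module.End ℝ (V_Unip s)) _ _ _ _ hc1 (Commute.one_right _)
    rw [e1, hc.mul_pow, h0, mul_zero]
  intro y hy p hp
  have h2 := res_Unip hH' M y hy ⟨p, hp⟩
  rw [h1] at h2
  exact h2

end Pow

section Rational

variable {G : Type*} {k : ℕ}

/-- The real matrix of an integer matrix. -/
def rm (B : Matrix (Fin k) (Fin k) ℤ) : Matrix (Fin k) (Fin k) ℝ := B.map (Int.cast : ℤ → ℝ)

private theorem mulVec_int_Unip (B : Matrix (Fin k) (Fin k) ℤ) (e : Fin k → ℤ) :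
    (rm B).mulVec (fun j => (e j : ℝ)) = fun j => ((B.mulVec e j : ℤ) : ℝ) := by
  funext j
  simp [rm, Matrix.mulVec, dotProduct]

private theorem rm_mul_Unip (B C : Matrix (Fin k) (Fin k) ℤ) : rm (B * C) = rm B * rm C := by
  exact Matrix.map_mul (f := Int.castRingHom ℝ)

private theorem rm_one_Unip : rm (1 : Matrix (Fin k) (Fin k) ℤ) = 1 := by
  unfold rm
  simp

private theorem rm_sub_Unip (B C : Matrix (Fin k) (Fin k) ℤ) : rm (B - C) = rm B - rm C := by
  unfold rm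
  ext i j
  simp

/-- If the differences of `b` vanish after `M` steps and `b (ψ g) = B (b g) + c g` with integers
`c g` then `b` has bounded denominators. -/
theorem rational (ψ : G → G) (B : Matrix (Fin k) (Fin k) ℤ) (b : G → Fin k → ℝ)
    (c : G → Fin k → ℤ) (hb : ∀ g, b (ψ g) = (rm B).mulVec (b g) + fun j => (c g j : ℝ)) (M : ℕ)
    (hM : ∀ g, (fun (h : G → Fin k → ℝ) (g : G) => h (ψ g) - h g)^[M] b g = 0) (g : G) :
    ∃ n : Fin k → ℤ, ∀ j, (((B - 1).det ^ M : ℤ) : ℝ) * b g j = n j := by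
  have key : ∀ M : ℕ, ∃ e : G → Fin k → ℤ, ∀ g,
      (fun (h : G → Fin k → ℝ) (g : G) => h (ψ g) - h g)^[M] b g =
        (rm ((B - 1) ^ M)).mulVec (b g) + fun j => (e g j : ℝ) := by
    intro M
    induction M with
    | zero =>
      refine ⟨fun _ _ => 0, fun g => ?_⟩
      rw [pow_zero, rm_one_Unip, Matrix.one_mulVec]
      funext j
      simp
    | succ M ih =>
      obtain ⟨e, he⟩ := ih
      refine ⟨fun g j => ((B - 1) ^ M).mulVec (c g) j + e (ψ g) j - e g j, fun g => ?_⟩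
      rw [Function.iterate_succ_apply']
      show (fun (h : G → Fin k → ℝ) (g : G) => h (ψ g) - h g)^[M] b (ψ g) -
        (fun (h : G → Fin k → ℝ) (g : G) => h (ψ g) - h g)^[M] b g = _
      rw [he, he, hb, Matrix.mulVec_add, mulVec_int_Unip, pow_succ, rm_mul_Unip, rm_sub_Unip,
        rm_one_Unip, ← Matrix.mulVec_mulVec, Matrix.sub_mulVec, Matrix.one_mulVec,
        Matrix.mulVec_sub]
      funext j
      simp only [Pi.add_apply, Pi.sub_apply]
      push_cast
      ring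
  obtain ⟨e, he⟩ := key M
  have h1 := (he g).symm.trans (hM g)
  have h2 : (rm ((B - 1) ^ M)).mulVec (b g) = fun j => (((-e g j : ℤ)) : ℝ) := by
    have h3 := eq_neg_of_add_eq_zero_left h1
    rw [h3]
    funext j
    simp
  refine ⟨((B - 1) ^ M).adjugate.mulVec fun j => -e g j, fun j => ?_⟩
  have h4 := congrArg (rm ((B - 1) ^ M).adjugate).mulVec h2
  rw [Matrix.mulVec_mulVec, ← rm_mul_Unip, Matrix.adjugate_mul, mulVec_int_Unip] at h4
  have h5 := congrFun h4 j
  rw [← h5]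
  have h6 : rm (((B - 1) ^ M).det • (1 : Matrix (Fin k) (Fin k) ℤ)) =
      ((((B - 1) ^ M).det : ℤ) : ℝ) • (1 : Matrix (Fin k) (Fin k) ℝ) := by
    unfold rm
    ext i j
    simp only [Matrix.map_apply, Matrix.smul_apply, smul_eq_mul, Matrix.one_apply]
    push_cast
    split_ifs <;> simp
  rw [h6, Matrix.smul_mulVec, Matrix.one_mulVec, Matrix.det_pow]
  rfl

end Rational

end Pool.Agent.ANO5.Typ
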