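import Pool.Agent.ANO5.Defs
import Pool.Agent.ANO5.Typ.Unip

/-!
# ANO5, module Typ: the field `unip` in terms of `Unip`

`G` is a subgroup of `SL(2, ℝ)` and `H` a permutation of `ℍ` which normalizes its action.  `UnipOn`
(functions on `SL(2, ℝ)`) is equivalent to `Unip` for the image of `G` in `Perm ℍ`.
-/

set_option autoImplicit false

open scoped UpperHalfPlane MatrixGroups
open Set

namespace Pool.Agent.ANO5.Typ

/-- The action of `SL(2, ℝ)` on `ℍ`. -/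
noncomputable def actHom : SL(2, ℝ) →* Equiv.Perm ℍ := MulAction.toPermHom SL(2, ℝ) ℍ

theorem actHom_apply (γ : SL(2, ℝ)) (z : ℍ) : actHom γ z = γ • z := rfl

private theorem trivial_eqs {γ : SL(2, ℝ)} {y : ℝ} (hy : 0 < y)
    (h : γ • (⟨⟨0, y⟩, hy⟩ : ℍ) = ⟨⟨0, y⟩, hy⟩) :
    γ 0 1 = -(y * y * γ 1 0) ∧ γ 0 0 = γ 1 1 := by
  have h1 := congrArg (fun z : ℍ => (z : ℂ)) h
  simp only [UpperHalfPlane.coe_specialLinearGroup_apply] at h1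
  have hd : ((algebraMap ℝ ℝ (γ 1 0) : ℝ) : ℂ) * ((⟨⟨0, y⟩, hy⟩ : ℍ) : ℂ) +
      ((algebraMap ℝ ℝ (γ 1 1) : ℝ) : ℂ) ≠ 0 := by
    intro h2
    have h3 := congrArg Complex.re h2
    have h4 := congrArg Complex.im h2
    have hdet := γ.det_coe
    rw [Matrix.det_fin_two] at hdet
    simp at h3 h4
    rcases h4 with h4 | h4
    · rw [h4, h3] at hdet
      simp at hdet
    · exact hy.ne' h4
  rw [div_eq_iff hd] at h1
  have h3 := congrArg Complex.re h1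
  have h4 := congrArg Complex.im h1
  simp at h3 h4
  constructor
  · linarith
  · have h5 : y * (γ 0 0 - γ 1 1) = 0 := by linarith
    rcases mul_eq_zero.1 h5 with h6 | h6
    · exact absurd h6 hy.ne'
    · linarith

theorem sq_eq_one_of_trivial {γ : SL(2, ℝ)} (h : ∀ z : ℍ, γ • z = z) : γ * γ = 1 := by
  obtain ⟨h1, h2⟩ := trivial_eqs one_pos (h _)
  obtain ⟨h3, -⟩ := trivial_eqs two_pos (h _)
  have h4 : γ 1 0 = 0 := by linarith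
  have h5 : γ 0 1 = 0 := by rw [h1, h4]; ring
  have hdet := γ.det_coe
  rw [Matrix.det_fin_two, h5, h4, h2] at hdet
  apply Matrix.SpecialLinearGroup.ext
  intro i j
  fin_cases i <;> fin_cases j <;>
    simp [Matrix.SpecialLinearGroup.coe_mul, Matrix.mul_apply, Fin.sum_univ_two, h2, h4, h5]
  · linarith
  · linarith

theorem mul_inv_trivial {γ δ : SL(2, ℝ)} (h : actHom γ = actHom δ) :
    (γ * δ⁻¹) * (γ * δ⁻¹) = 1 := by
  refine sq_eq_one_of_trivial fun z => ?_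
  have h1 := congrArg (fun p : Equiv.Perm ℍ => p (δ⁻¹ • z)) h
  simp only [actHom_apply, smul_inv_smul] at h1
  rw [mul_smul, h1]

/-- additive functions depend only on the action -/
theorem add_eq {G : Subgroup SL(2, ℝ)} {h : SL(2, ℝ) → ℝ}
    (hh : ∀ a ∈ G, ∀ b ∈ G, h (a * b) = h a + h b) {γ δ : SL(2, ℝ)} (hγ : γ ∈ G) (hδ : δ ∈ G)
    (e : actHom γ = actHom δ) : h γ = h δ := by
  have h1 : h 1 = 0 := by
    have := hh 1 G.one_mem 1 G.one_mem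
    rw [mul_one] at this
    linarith
  have hκ : γ * δ⁻¹ ∈ G := G.mul_mem hγ (G.inv_mem hδ)
  have h2 := hh _ hκ _ hκ
  rw [mul_inv_trivial e, h1] at h2
  have h3 := hh _ hκ _ hδ
  rw [inv_mul_cancel_right] at h3
  linarith

variable {G : Subgroup SL(2, ℝ)} {H : Equiv.Perm ℍ}

private theorem conj_eq {ψ : SL(2, ℝ) → SL(2, ℝ)} {δ : SL(2, ℝ)}
    (h : ∀ z : ℍ, H (δ • z) = ψ δ • H z) : H * actHom δ * H⁻¹ = actHom (ψ δ) := by
  refine Equiv.ext fun z => ?_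
  show H (δ • H⁻¹ z) = ψ δ • z
  have h1 : H (H⁻¹ z) = z := H.apply_symm_apply z
  rw [h, h1]

theorem exists_psi (hH : ∀ p ∈ G.map actHom, H * p * H⁻¹ ∈ G.map actHom) :
    ∃ ψ : SL(2, ℝ) → SL(2, ℝ), ∀ δ ∈ G, ψ δ ∈ G ∧ ∀ z : ℍ, H (δ • z) = ψ δ • H z := by
  have key : ∀ δ : SL(2, ℝ), ∃ δ' : SL(2, ℝ), δ ∈ G → δ' ∈ G ∧ ∀ z : ℍ, H (δ • z) = δ' • H z := by
    intro δ
    by_cases hδ : δ ∈ G
    · obtain ⟨δ', hδ', e⟩ := hH (actHom δ) ⟨δ, hδ, rfl⟩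
      refine ⟨δ', fun _ => ⟨hδ', fun z => ?_⟩⟩
      have h1 : δ' • H z = H (δ • H⁻¹ (H z)) :=
        congrArg (fun p : Equiv.Perm ℍ => p (H z)) e
      have h2 : H⁻¹ (H z) = z := H.symm_apply_apply z
      rw [h1, h2]
    · exact ⟨1, fun h => absurd h hδ⟩
  choose ψ hψ using key
  exact ⟨ψ, hψ⟩

private theorem iter_eq {h : SL(2, ℝ) → ℝ} {h' : Equiv.Perm ℍ → ℝ}
    (e : ∀ δ ∈ G, h' (actHom δ) = h δ) {ψ : SL(2, ℝ) → SL(2, ℝ)}
    (hψ : ∀ δ ∈ G, ψ δ ∈ G ∧ ∀ z : ℍ, H (δ • z) = ψ δ • H z) (n : ℕ) :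
    ∀ δ ∈ G, (Dl H)^[n] h' (actHom δ) =
      (fun (h : SL(2, ℝ) → ℝ) δ => h (ψ δ) - h δ)^[n] h δ := by
  induction n with
  | zero => exact e
  | succ n ih =>
    intro δ hδ
    rw [Function.iterate_succ_apply', Function.iterate_succ_apply']
    show (Dl H)^[n] h' (H * actHom δ * H⁻¹) - (Dl H)^[n] h' (actHom δ) = _
    rw [conj_eq (hψ δ hδ).2, ih _ (hψ δ hδ).1, ih _ hδ]

theorem unipOn_of_unip {n : ℕ} (hU : Unip (G.map actHom : Set (Equiv.Perm ℍ)) H n) :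
    UnipOn (G : Set SL(2, ℝ)) H := by
  classical
  refine ⟨n, fun ψ hψ h hh δ hδ => ?_⟩
  have hex : ∃ h' : Equiv.Perm ℍ → ℝ, ∀ δ ∈ G, h' (actHom δ) = h δ := by
    refine ⟨fun p => if hp : ∃ δ ∈ G, actHom δ = p then h hp.choose else 0, fun δ hδ => ?_⟩
    have hp : ∃ δ' ∈ G, actHom δ' = actHom δ := ⟨δ, hδ, rfl⟩
    simp only [dif_pos hp]
    exact add_eq hh hp.choose_spec.1 hδ hp.choose_spec.2
  obtain ⟨h', he⟩ := hex
  rw [← iter_eq he hψ n δ hδ]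
  refine hU h' ?_ _ ⟨δ, hδ, rfl⟩
  rintro _ ⟨a, ha, rfl⟩ _ ⟨b, hb, rfl⟩
  rw [← map_mul, he _ (G.mul_mem ha hb), he a ha, he b hb, hh a ha b hb]

theorem unip_of_unipOn (hH : ∀ p ∈ G.map actHom, H * p * H⁻¹ ∈ G.map actHom)
    (hU : UnipOn (G : Set SL(2, ℝ)) H) :
    ∃ n, Unip (G.map actHom : Set (Equiv.Perm ℍ)) H n := by
  obtain ⟨n, hn⟩ := hU
  obtain ⟨ψ, hψ⟩ := exists_psi hH
  refine ⟨n, fun h' hh' p hp => ?_⟩
  obtain ⟨δ, hδ, rfl⟩ := hp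
  rw [iter_eq (h := fun δ => h' (actHom δ)) (fun δ _ => rfl) hψ n δ hδ]
  refine hn ψ hψ _ (fun a ha b hb => ?_) δ hδ
  show h' (actHom (a * b)) = _
  rw [map_mul]
  exact hh' _ ⟨a, ha, rfl⟩ _ ⟨b, hb, rfl⟩

end Pool.Agent.ANO5.Typ
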