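import Pool.Agent.ANO5.Hyp.Psi
import Pool.Agent.ANO5.Hyp.UnipPow
import Pool.Agent.ANO5.Lev.Level

/-!
# ANO5, module Typ: the shifts of the torus functions on the stabiliser of a type are discrete

`chiT D D' a` is the shift of `TU D T + TU D' T⁻¹` under the deck transformation `a`.  If some lift
of a power preserves the type `κ` then the values of `chiT` on `Stab F κ` have a common denominator:
by `Hyp.exists_psi` there is a character `ψ` with bounded denominators which has the same values at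
the translations and the same equation `ψ (T a T⁻¹) = A^m (ψ a)`, and by `Hyp.unip_stab` the
difference vanishes.
-/

set_option autoImplicit false

open scoped UpperHalfPlane MatrixGroups
open Set Filter Topology

namespace Pool.Agent.ANO5.Typ

open Pool.Agent.ANO (IsHyperbolicMatrix)
open Pool.Agent.ANO3 Pool.Agent.ANO3.Tree Pool.Agent.ANO5.A1 Pool.Agent.ANO5.A2
  Pool.Agent.ANO5.A3 Pool.Agent.ANO5.A3.Grp Pool.Agent.ANO5.Hyp Pool.Agent.ANO5.Tor
  Pool.Agent.ANO5.Lin Pool.Agent.ANO5.Lev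

variable [TFib] {r : ℕ} {S : Fin r → SurfaceMap} {D : TData S}
  {D' : TData fun i => rev (S i)} {T₀ T : X r ≃ₜ X r}

/-- The shift of the sum of the two torus functions. -/
noncomputable def chiT (D : TData S) (D' : TData fun i => rev (S i)) (a : Equiv.Perm (X r)) :
    Fin TFib.k → ℝ := chi D a + chi D' a

theorem chiT_mul {a b : Equiv.Perm (X r)} (ha : a ∈ Deck (surf S)) (hb : b ∈ Deck (surf S)) :
    chiT D D' (a * b) = chiT D D' a + chiT D D' b := by
  have h1 : chi D (⇑a ∘ ⇑b) = chi D a + chi D b := chi_comp (D := D) ha hb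
  have hd : ∀ {g : X r → X r}, IsDeck (surf S) g → IsDeck (surf fun i => rev (S i)) g :=
    fun h => h
  have h2 : chi D' (⇑a ∘ ⇑b) = chi D' a + chi D' b := chi_comp (D := D') (hd ha) (hd hb)
  unfold chiT
  rw [Equiv.Perm.coe_mul, h1, h2, add_add_add_comm]

theorem sum_act (h : Sit D D' T₀ T) {a : Equiv.Perm (X r)} (ha : a ∈ Deck (surf S)) (x : X r) :
    TU D T (a x) + TU D' T.symm (a x) = TU D T x + TU D' T.symm x + chiT D D' a := by
  have h1 : TU D T (a x) = TU D T x + chi D a := TU_act h.set h.model ha x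
  have h2 : TU D' T.symm (a x) = TU D' T.symm x + chi D' a :=
    TU_act h.set.symm h.model' ha x
  rw [h1, h2]
  unfold chiT
  abel

/-- the invariance of the two torus functions -/
theorem act_eq (h : Sit D D' T₀ T) {a : Equiv.Perm (X r)} (ha : a ∈ Deck (surf S))
    (h0 : chiT D D' a = 0) (x : X r) :
    TU D T (a x) = TU D T x ∧ TU D' T.symm (a x) = TU D' T.symm x := by
  have h1 : TU D T (a x) = TU D T x + chi D a := TU_act h.set h.model ha x
  have h2 : TU D' T.symm (a x) = TU D' T.symm x + chi D' a :=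
    TU_act h.set.symm h.model' ha x
  have h3 : D.sA.pr (chi D a) = chi D a := pr_chi a
  have h4 : D'.sA.pr (chi D' a) = chi D' a := pr_chi a
  rw [pr_inv' h] at h4
  have h5 : D.sA.pr (chi D' a) = 0 := sub_eq_self.1 h4
  have h6 : chi D a = 0 := by
    have h7 := congrArg D.sA.pr h0
    unfold chiT at h7
    rwa [map_add, h3, h5, add_zero, map_zero] at h7
  have h7 : chi D' a = 0 := by
    unfold chiT at h0
    rwa [h6, zero_add] at h0
  rw [h1, h2, h6, h7, add_zero, add_zero]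
  exact ⟨rfl, rfl⟩

theorem chiT_trans (h : Sit D D' T₀ T) (v : Fin TFib.k → ℤ) {a : Equiv.Perm (X r)}
    (ha : ∀ x, a x = dkT (fun _ => 1) 1 v x) : chiT D D' a = fun j => (v j : ℝ) := by
  have e : (a : X r → X r) = fun x : X r => (x.1, (x.2.1, fun j => x.2.2 j + v j)) := by
    funext x
    rw [ha]
    exact Prod.ext (funext fun i => one_smul _ _) rfl
  have h1 : chi D a = D.sA.pr fun j => (v j : ℝ) := by
    rw [e]
    exact chi_trans v
  have h2 : chi D' a = D'.sA.pr fun j => (v j : ℝ) := by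
    rw [e]
    exact chi_trans v
  unfold chiT
  rw [h1, h2, pr_inv' h]
  abel

theorem lin_pow_inv (h : Sit D D' T₀ T) (n : ℕ) (x : Fin TFib.k → ℝ) :
    (Lin.lin D.A ^ n) ((Lin.lin D'.A ^ n) x) = x := by
  rw [h.inv, ← lin_pow, ← lin_pow, ← ContinuousLinearMap.comp_apply, ← lin_mul,
    Matrix.inv_pow', Matrix.mul_nonsing_inv, lin_one]
  · rfl
  · rw [Matrix.det_pow]
    exact h.hyp.1.pow n

section Level

variable {F : ∀ i, Flat (S i)} {κ : Fin r → ℍ} {m : ℕ} {γ : Fin r → SL(2, ℝ)}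
  {δ : Equiv.Perm Fib.W} {c : (Fin TFib.k → ℝ) × (Fin TFib.k → ℝ)}

/-- The lift which preserves the type, in the form of the module Hyp. -/
theorem exists_isFix_level (h : Sit D D' T₀ T) (hA : IsAnosovLift (surf S) T)
    (hc : IsLevel F D D' T₀ κ m γ δ c) :
    ∃ (T' : X r ≃ₜ X r) (g : Equiv.Perm (X r)), IsFix F (skew S D.A D.τ) T T' m g κ ∧
      ∀ x, g x = dk γ δ x := by
  obtain ⟨T', H, h', hT', hH⟩ := exists_liftOf (S := S) T m hc.mem hc.mem'
  obtain ⟨g, hg, hgx⟩ := exists_deck (isDeck_dk (S := S) hc.mem hc.mem')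
  have e : (T₀ : X r → X r) = skew S D.A D.τ := funext h.model
  have hcov : ∀ (x : X r) (i : Fin r), (T₀ x).1 i = (S i).f (x.1 i) := fun x i => h.set.cover i x
  refine ⟨T', g, ⟨hA, hc.pos, hg, ?_, ?_, ?_, fun x => ?_, fun x hx i => ?_⟩, hgx⟩
  · rw [← e]
    exact T₀.continuous
  · rw [← e]
    exact hcov
  · rw [← e]
    exact h.set.hom
  · rw [hT', hgx, pow_eq_iterate]
  · rw [hgx, ← e]
    have e2 : (dk γ δ (T₀^[m] x)).1 i = γ i • (T₀^[m] x).1 i := rfl
    rw [e2, cover_iter hcov]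
    obtain ⟨H, hH, hHz⟩ := exists_liftPow (S := S i) m (hc.mem i)
    have h1 := hc.eqv i
    have h2 := hx i
    rw [← hHz] at h1 ⊢
    have h3 : (F i).Eqv (H (x.1 i)) (H (κ i)) :=
      ⟨((F i).du_lift_zero hH _ _).2 h2.1, ((F i).ds_lift_zero hH _ _).2 h2.2⟩
    exact ⟨(((F i).isTree_u.congr_left h3.1 _).trans ((F i).isTree_u.symm _ _)).trans h1.1,
      (((F i).isTree_s.congr_left h3.2 _).trans ((F i).isTree_s.symm _ _)).trans h1.2⟩

/-- The shift of a conjugate. -/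
theorem chiT_conj (h : Sit D D' T₀ T) (hc : IsLevel F D D' T₀ κ m γ δ c)
    {a a' : Equiv.Perm (X r)} (ha : a ∈ Stab F κ) (ha' : a' ∈ Deck (surf S))
    (he : ∀ p, dk γ δ (T₀^[m] (a p)) = a' (dk γ δ (T₀^[m] p))) :
    chiT D D' a' = (Lin.lin D.A ^ m) (chiT D D' a) := by
  have hself := setting_self h.set
  obtain ⟨x, hx⟩ : ∃ x : X r, x = (κ, Classical.arbitrary Fib.W) := ⟨_, rfl⟩
  have hx1 : EqvS F x.1 κ := by
    rw [hx]
    exact EqvS.refl κ
  have hax1 := ha.2 x hx1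
  have hD : ∀ y : X r, EqvS F y.1 κ → (∀ i, DU F T₀ i (Sum.inl (κ i)) (Sum.inr y) = 0) ∧
      ∀ i, DS F T₀ i (Sum.inl (κ i)) (Sum.inr y) = 0 := fun y hy => by
    refine ⟨fun i => ?_, fun i => ?_⟩
    · rw [DU_self hself, (F i).isTree_u.symm]
      exact (hy i).1
    · rw [DS_self hself, (F i).isTree_s.symm]
      exact (hy i).2
  have hu1 := hc.u T₀ hself x (hD x hx1).1
  have hu2 := hc.u T₀ hself (a x) (hD _ hax1).1
  have hs1 := hc.s T₀ hself x (hD x hx1).2
  have hs2 := hc.s T₀ hself (a x) (hD _ hax1).2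
  have ha0 : a ∈ Deck (surf S) := ha.1
  have tu : ∀ {b : Equiv.Perm (X r)}, b ∈ Deck (surf S) → ∀ y, TU D T₀ (b y) =
      TU D T₀ y + chi D b := fun hb y => TU_act hself h.model hb y
  have ts : ∀ {b : Equiv.Perm (X r)}, b ∈ Deck (surf S) → ∀ y, TU D' T₀.symm (b y) =
      TU D' T₀.symm y + chi D' b := fun hb y => TU_act hself.symm h.model' hb y
  rw [he, tu ha', tu ha0] at hu2
  rw [he, ts ha', ts ha0] at hs2
  have e1 : chi D a' = (Lin.lin D.A ^ m) (chi D a) := by
    have h1 : chi D a' = (TU D T₀ (dk γ δ (T₀^[m] x)) + chi D a' - c.1) -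
        (TU D T₀ (dk γ δ (T₀^[m] x)) - c.1) := by abel
    rw [h1, hu2, hu1, ← map_sub]
    congr 1
    abel
  have e2 : chi D' a = (Lin.lin D'.A ^ m) (chi D' a') := by
    have h1 : chi D' a = (TU D' T₀.symm x + chi D' a - c.2) - (TU D' T₀.symm x - c.2) := by abel
    rw [h1, hs2, hs1, ← map_sub]
    congr 1
    abel
  unfold chiT
  rw [map_add, ← e1, e2, lin_pow_inv h]

end Level

section Disc

variable {κ : Fin r → ℍ} {m : ℕ} {γ : Fin r → SL(2, ℝ)}
  {δ : Equiv.Perm Fib.W} {c : (Fin TFib.k → ℝ) × (Fin TFib.k → ℝ)}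

/-- A power of the lift acts unipotently. -/
theorem exists_unip_level (N : ∀ i, Normal (S i)) (h : Sit D D' T₀ T)
    (hc : IsLevel (fun i => (N i).toNormalForm.flat) D D' T₀ κ m γ δ c) :
    ∃ (n : ℕ) (γ' : Fin r → SL(2, ℝ)) (δ' : Equiv.Perm Fib.W),
      IsLevel (fun i => (N i).toNormalForm.flat) D D' T₀ κ n γ' δ' c ∧
      ∀ i, UnipOn (stabSet (S i).Γ (N i).du (N i).ds (κ i)) (fun z => γ' i • (S i).f^[n] z) := by
  choose q hq hu using fun i => exists_unip (N i) hc.pos (hc.mem i) (hc.eqv i)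
  have hq0 : 0 < ∏ i, q i := Finset.prod_pos fun i _ => hq i
  obtain ⟨γ', δ', h1, h2⟩ := hc.pow h hq0
  refine ⟨_, γ', δ', h1, fun i => ?_⟩
  have hself := setting_self h.set
  have hcov : ∀ (x : X r) (i : Fin r), (T₀ x).1 i = (S i).f (x.1 i) := fun x i => h.set.cover i x
  have e4 : ∀ (n : ℕ) (x : X r), ((fun x => dk γ δ (T₀^[m] x))^[n] x).1 i =
      (fun z => γ i • (S i).f^[m] z)^[n] (x.1 i) := by
    intro n
    induction n with
    | zero => exact fun x => rfl
    | succ n ih =>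
      intro x
      rw [Function.iterate_succ_apply', Function.iterate_succ_apply', ← ih]
      show γ i • (T₀^[m] _).1 i = _
      rw [cover_iter hcov]
  have e5 : (fun z => γ' i • (S i).f^[m * ∏ i, q i] z) =
      (fun z => γ i • (S i).f^[m] z)^[∏ i, q i] := by
    funext z
    obtain ⟨x, hx⟩ : ∃ x : X r, x.1 i = z := ⟨(fun _ => z, Classical.arbitrary Fib.W), rfl⟩
    have h5 := congrFun (congrArg Prod.fst (h2 T₀ hself x)) i
    rw [e4] at h5
    have h6 : (dk γ' δ' (T₀^[m * ∏ i, q i] x)).1 i =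
        γ' i • (T₀^[m * ∏ i, q i] x).1 i := rfl
    rw [h6, cover_iter hcov, hx] at h5
    exact h5
  rw [e5, ← Finset.mul_prod_erase Finset.univ q (Finset.mem_univ i)]
  exact hu i _ (Finset.prod_pos fun j _ => hq j)

/-- The shifts of the stabiliser have a common denominator. -/
theorem disc (N : ∀ i, Normal (S i)) (h : Sit D D' T₀ T) (hA : IsAnosovLift (surf S) T)
    (hc : IsLevel (fun i => (N i).toNormalForm.flat) D D' T₀ κ m γ δ c) :
    ∃ q : ℕ, 0 < q ∧ ∀ a ∈ Stab (fun i => (N i).toNormalForm.flat) κ,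
      ∃ w : Fin TFib.k → ℤ, ∀ j, (q : ℝ) * chiT D D' a j = w j := by
  obtain ⟨n, γ', δ', hc', hu'⟩ := exists_unip_level N h hc
  obtain ⟨T', g, hfix, hg⟩ := exists_isFix_level h hA hc'
  have hn := hc'.pos
  have e : (T₀ : X r → X r) = skew S D.A D.τ := funext h.model
  have hu : ∀ (γ₁ : Fin r → SL(2, ℝ)) (δ₁ : Equiv.Perm TFib.base.W) (v : Fin TFib.k → ℤ),
      (∀ i, γ₁ i ∈ (S i).Γ) → (∀ x, g x = dkT γ₁ δ₁ v x) → ∀ i,
        UnipOn (stabSet (S i).Γ (N i).du (N i).ds (κ i)) (fun z => γ₁ i • (S i).f^[n] z) := by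
    intro γ₁ δ₁ v h1 h2 i
    have e3 : (fun z => γ₁ i • (S i).f^[n] z) = fun z => γ' i • (S i).f^[n] z := by
      funext z
      obtain ⟨x, hx⟩ : ∃ x : X r, x.1 i = (S i).f^[n] z :=
        ⟨(fun _ => (S i).f^[n] z, Classical.arbitrary Fib.W), rfl⟩
      have h3 := congrFun (congrArg Prod.fst ((h2 x).symm.trans (hg x))) i
      have h4 : γ₁ i • x.1 i = γ' i • x.1 i := h3
      rwa [hx] at h4
    rw [e3]
    exact hu' i
  have hdet : (1 - D.A ^ n).det ≠ 0 := by
    intro h0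
    have h1 : ((1 - D.A ^ n).map (Int.cast : ℤ → ℝ)).det = 0 := by
      have h2 := RingHom.map_det (Int.castRingHom ℝ) (1 - D.A ^ n)
      rw [h0, map_zero] at h2
      exact h2.symm
    obtain ⟨v, hv0, hv⟩ := Matrix.exists_mulVec_eq_zero_iff.2 h1
    refine hv0 (Lin.one_sub_injective h.hyp hn ?_)
    rw [← Lin.lin_pow, Lin.lin_apply]
    have h3 : (1 - D.A ^ n).map (Int.cast : ℤ → ℝ) =
        1 - (D.A ^ n).map (Int.cast : ℤ → ℝ) := by
      have h4 := map_sub (Int.castRingHom ℝ).mapMatrix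
        (1 : Matrix (Fin TFib.k) (Fin TFib.k) ℤ) (D.A ^ n)
      rw [map_one] at h4
      exact h4
    rw [h3, Matrix.sub_mulVec, Matrix.one_mulVec, sub_eq_zero] at hv
    exact hv.symm
  obtain ⟨q, ψ, hq, ψm, ψv, ψT, ψr⟩ := Hyp.exists_psi N D.tw hfix hdet hu
  obtain ⟨M, hM⟩ := unip_stab N D.tw hfix hu
  refine ⟨q, hq, fun a ha => ?_⟩
  obtain ⟨w, hw⟩ := ψr a ha
  refine ⟨w, fun j => ?_⟩
  rw [← hw]
  suffices h0 : ∀ a ∈ Stab (fun i => (N i).toNormalForm.flat) κ,
      chiT D D' a - ψ a = 0 by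
    rw [sub_eq_zero.1 (h0 a ha)]
  clear hw w ha a j ψr
  -- the conjugation
  have hconj : ∀ a ∈ Stab (fun i => (N i).toNormalForm.flat) κ,
      (T'.toEquiv : Equiv.Perm (X r)) * a * (T'.toEquiv : Equiv.Perm (X r))⁻¹ ∈
        Stab (fun i => (N i).toNormalForm.flat) κ ∧
      chiT D D' ((T'.toEquiv : Equiv.Perm (X r)) * a * (T'.toEquiv : Equiv.Perm (X r))⁻¹) -
        ψ ((T'.toEquiv : Equiv.Perm (X r)) * a * (T'.toEquiv : Equiv.Perm (X r))⁻¹) =
        (Lin.lin D.A ^ n) (chiT D D' a - ψ a) := by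
    intro a ha
    obtain ⟨a', ha', h1, h2⟩ := hfix.fwd ha
    have h3 : (T'.toEquiv : Equiv.Perm (X r)) * a * (T'.toEquiv : Equiv.Perm (X r))⁻¹ = a' := by
      rw [mul_inv_eq_iff_eq_mul]
      exact Equiv.ext fun x => h2 x
    rw [h3]
    refine ⟨ha', ?_⟩
    have h4 : chiT D D' a' = (Lin.lin D.A ^ n) (chiT D D' a) := by
      refine chiT_conj h hc' ha ha'.1 fun p => ?_
      rw [← hg, ← hg, e]
      exact h1 p
    rw [h4, ψT a ha a' ha' h2, lin_pow, ← map_sub]
  obtain ⟨d, hd⟩ : ∃ d : Equiv.Perm (X r) → Fin TFib.k → ℝ, d = fun a => chiT D D' a - ψ a :=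
    ⟨_, rfl⟩
  have hD : ∀ j, ∀ a ∈ Stab (fun i => (N i).toNormalForm.flat) κ,
      (Typ.Dl (T'.toEquiv : Equiv.Perm (X r)))^[M] (fun a => d a j) a = 0 := by
    intro j a ha
    refine hM _ (fun a ha b hb => ?_) (fun v a hav => ?_) a ha
    · show d (a * b) j = d a j + d b j
      rw [hd]
      show (chiT D D' (a * b) - ψ (a * b)) j = (chiT D D' a - ψ a) j + (chiT D D' b - ψ b) j
      rw [chiT_mul ha.1 hb.1, ψm a ha b hb]
      simp only [Pi.sub_apply, Pi.add_apply]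
      ring
    · show d a j = 0
      rw [hd]
      show (chiT D D' a - ψ a) j = 0
      rw [chiT_trans h v hav, ψv v a hav, sub_self]
      rfl
  -- the iterated differences
  have hit : ∀ (M : ℕ) (e : Equiv.Perm (X r) → Fin TFib.k → ℝ),
      (∀ a ∈ Stab (fun i => (N i).toNormalForm.flat) κ,
        e ((T'.toEquiv : Equiv.Perm (X r)) * a * (T'.toEquiv : Equiv.Perm (X r))⁻¹) =
          (Lin.lin D.A ^ n) (e a)) →
      (∀ j, ∀ a ∈ Stab (fun i => (N i).toNormalForm.flat) κ,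
        (Typ.Dl (T'.toEquiv : Equiv.Perm (X r)))^[M] (fun a => e a j) a = 0) →
      ∀ a ∈ Stab (fun i => (N i).toNormalForm.flat) κ, e a = 0 := by
    intro M
    induction M with
    | zero =>
      intro e _ h2 a ha
      funext j
      exact h2 j a ha
    | succ M ih =>
      intro e h1 h2 a ha
      obtain ⟨e', he'⟩ : ∃ e' : Equiv.Perm (X r) → Fin TFib.k → ℝ, e' = fun a =>
          e ((T'.toEquiv : Equiv.Perm (X r)) * a * (T'.toEquiv : Equiv.Perm (X r))⁻¹) - e a :=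
        ⟨_, rfl⟩
      have h3 := ih e' (fun a ha => ?_) (fun j a ha => ?_) a ha
      · rw [he'] at h3
        have h4 : (Lin.lin D.A ^ n) (e a) = e a := by
          rw [← h1 a ha]
          exact sub_eq_zero.1 h3
        exact Lin.one_sub_injective h.hyp hn h4
      · rw [he']
        have h5 := (hconj a ha).1
        show e _ - e _ = (Lin.lin D.A ^ n) (e _ - e _)
        rw [h1 _ h5, map_sub, h1 a ha]
      · have h6 := h2 j a ha
        rw [Function.iterate_succ_apply] at h6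
        rw [he']
        exact h6
  have h1 := hit M d (fun a ha => by
    rw [hd]
    exact (hconj a ha).2) hD
  intro a ha
  have h2 := h1 a ha
  rw [hd] at h2
  exact h2

omit [TFib] in
theorem finite_bdd {k : ℕ} {q : ℕ} (hq : 0 < q) (R : ℝ) :
    {l : Fin k → ℝ | (∀ j, |l j| ≤ R) ∧ ∃ w : Fin k → ℤ, ∀ j, (q : ℝ) * l j = w j}.Finite := by
  have hq' : (0 : ℝ) < q := Nat.cast_pos.2 hq
  have h1 : (Set.pi Set.univ fun _ : Fin k =>
      ((fun w : ℤ => (w : ℝ) / q) '' {w : ℤ | |(w : ℝ)| ≤ q * R})).Finite := by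
    refine Set.Finite.pi fun _ => Set.Finite.image _ ?_
    refine (Set.finite_Icc (-⌈(q : ℝ) * R⌉) ⌈(q : ℝ) * R⌉).subset fun w hw => ?_
    have h2 : |(w : ℝ)| ≤ q * R := hw
    rw [abs_le] at h2
    have h3 := Int.le_ceil ((q : ℝ) * R)
    constructor
    · have h4 : (-(⌈(q : ℝ) * R⌉ : ℤ) : ℝ) ≤ w := by
        have := h2.1
        linarith
      exact_mod_cast h4
    · have h4 : (w : ℝ) ≤ (⌈(q : ℝ) * R⌉ : ℤ) := h2.2.trans h3
      exact_mod_cast h4
  refine h1.subset fun l hl => ?_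
  obtain ⟨h2, w, hw⟩ := hl
  intro j _
  refine ⟨w j, ?_, ?_⟩
  · show |(w j : ℝ)| ≤ q * R
    rw [← hw, abs_mul, abs_of_pos hq']
    exact mul_le_mul_of_nonneg_left (h2 j) hq'.le
  · show (w j : ℝ) / q = l j
    rw [← hw]
    field_simp

/-- The shifts in a box are finitely many. -/
theorem finite_chi (N : ∀ i, Normal (S i)) (h : Sit D D' T₀ T) (hA : IsAnosovLift (surf S) T)
    (hc : IsLevel (fun i => (N i).toNormalForm.flat) D D' T₀ κ m γ δ c) (R : ℝ) :
    {l : Fin TFib.k → ℝ | (∀ j, |l j| ≤ R) ∧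
      ∃ a ∈ Stab (fun i => (N i).toNormalForm.flat) κ, chiT D D' a = l}.Finite := by
  obtain ⟨q, hq, h1⟩ := disc N h hA hc
  refine (finite_bdd hq R).subset fun l hl => ?_
  obtain ⟨h2, a, ha, rfl⟩ := hl
  exact ⟨h2, h1 a ha⟩

/-- The same for the shifts of the sum of the torus functions of the model (for the module Cnt). -/
theorem finite_shift (N : ∀ i, Normal (S i)) (h : Sit D D' T₀ T) (hA : IsAnosovLift (surf S) T)
    (hc : IsLevel (fun i => (N i).toNormalForm.flat) D D' T₀ κ m γ δ c) :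
    {l : Fin TFib.k → ℝ | (∀ j, l j ∈ Icc (0 : ℝ) 1) ∧
      ∃ a ∈ Stab (fun i => (N i).toNormalForm.flat) κ, ∀ x,
        TU D T₀ (a x) + TU D' T₀.symm (a x) = TU D T₀ x + TU D' T₀.symm x + l}.Finite := by
  refine (finite_chi N h hA hc 1).subset fun l hl => ?_
  obtain ⟨h1, a, ha, h2⟩ := hl
  refine ⟨fun j => ?_, a, ha, ?_⟩
  · rw [abs_of_nonneg (h1 j).1]
    exact (h1 j).2
  · have h3 := h2 (Classical.arbitrary (X r))
    rw [sum_act h.self ha.1] at h3
    exact add_left_cancel h3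

end Disc

end Pool.Agent.ANO5.Typ
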